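import Pool.Agent.H347K.Order

set_option autoImplicit false

/-!
# The group

`RD R`: data on a commutative ring `R` (which will be `ℚ[t]` localised at `t = -1`).
`Kg D`: class-two nilpotent group on five copies of `R`, extended by `⟨t⟩`.
-/

namespace Pool.Agent.H347K

structure RD (R : Type) [CommRing R] where
  e : ℤ → R
  e_zero : e 0 = 1
  e_add : ∀ k l, e (k + l) = e k * e l
  κ : R →+* R
  κκ : ∀ r, κ (κ r) = κ r
  κ_e2 : ∀ k, κ (e k) * κ (e k) = 1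
  κ_e1 : κ (e 1) = -1
  ker : ∀ r, κ r = 0 → ∃ s, r = (1 + e 1) * s
  sq : ∀ p q, κ p * κ p + κ q * κ q = 0 → κ p = 0 ∧ κ q = 0
  half : R
  two_half : 2 * half = 1
  ev : R →+* ℝ
  ev_inj : ∀ r, ev r = 0 → r = 0
  ev_pos : ∀ k, 0 < ev (e k)
  ev' : R →+* ℝ
  ev'_inj : ∀ r, ev' r = 0 → r = 0
  ev'_pos : ∀ k, 0 < ev' (κ (e k) * e k)
  bez : ∀ c₁ c₂ : R, ∃ p q u v : R, u * p + v * q = 1 ∧ q * c₂ + p * c₁ = 0

variable {R : Type} [CommRing R]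

namespace RD
variable (D : RD R)

lemma e_mul_neg (k : ℤ) : D.e k * D.e (-k) = 1 := by
  rw [← D.e_add, add_neg_cancel, D.e_zero]

lemma e_neg_mul (k : ℤ) : D.e (-k) * D.e k = 1 := by
  rw [mul_comm, D.e_mul_neg]

lemma κ_rho : D.κ (1 + D.e 1) = 0 := by
  rw [map_add, map_one, D.κ_e1]; ring

lemma κ_add (k l : ℤ) : D.κ (D.e (k + l)) = D.κ (D.e k) * D.κ (D.e l) := by
  rw [D.e_add, map_mul]

lemma κ_mul_neg (k : ℤ) : D.κ (D.e k) * D.κ (D.e (-k)) = 1 := by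
  rw [← map_mul, D.e_mul_neg, map_one]

lemma κ_neg (k : ℤ) : D.κ (D.e (-k)) = D.κ (D.e k) := by
  have h1 := D.κ_mul_neg k
  have h2 := D.κ_e2 k
  calc D.κ (D.e (-k)) = (D.κ (D.e k) * D.κ (D.e k)) * D.κ (D.e (-k)) := by rw [h2, one_mul]
    _ = D.κ (D.e k) * (D.κ (D.e k) * D.κ (D.e (-k))) := by ring
    _ = D.κ (D.e k) := by rw [h1, mul_one]

end RD

/-- The group. -/
@[ext] structure Kg (D : RD R) where
  k : ℤ
  a₁ : R
  a₂ : R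
  b : R
  c₁ : R
  c₂ : R

namespace Kg

variable {D : RD R}

instance : Mul (Kg D) :=
  ⟨fun x y => ⟨x.k + y.k, x.a₁ + D.e x.k * y.a₁, x.a₂ + D.e x.k * y.a₂,
    x.b + D.κ (D.e x.k) * D.e x.k * y.b,
    x.c₁ + D.e x.k * y.c₁ + (D.κ x.a₁ * (D.κ (D.e x.k) * D.e x.k * y.b) -
      D.κ (D.e x.k) * D.κ y.a₁ * x.b),
    x.c₂ + D.e x.k * y.c₂ + (D.κ x.a₂ * (D.κ (D.e x.k) * D.e x.k * y.b) -
      D.κ (D.e x.k) * D.κ y.a₂ * x.b)⟩⟩

instance : One (Kg D) := ⟨⟨0, 0, 0, 0, 0, 0⟩⟩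

instance : Inv (Kg D) :=
  ⟨fun x => ⟨-x.k, - (D.e (-x.k) * x.a₁), - (D.e (-x.k) * x.a₂),
    - (D.κ (D.e (-x.k)) * D.e (-x.k) * x.b), - (D.e (-x.k) * x.c₁), - (D.e (-x.k) * x.c₂)⟩⟩

@[simp] lemma mul_k (x y : Kg D) : (x * y).k = x.k + y.k := rfl
@[simp] lemma mul_a₁ (x y : Kg D) : (x * y).a₁ = x.a₁ + D.e x.k * y.a₁ := rfl
@[simp] lemma mul_a₂ (x y : Kg D) : (x * y).a₂ = x.a₂ + D.e x.k * y.a₂ := rfl
@[simp] lemma mul_b (x y : Kg D) : (x * y).b = x.b + D.κ (D.e x.k) * D.e x.k * y.b := rfl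
@[simp] lemma mul_c₁ (x y : Kg D) : (x * y).c₁ = x.c₁ + D.e x.k * y.c₁ +
    (D.κ x.a₁ * (D.κ (D.e x.k) * D.e x.k * y.b) - D.κ (D.e x.k) * D.κ y.a₁ * x.b) := rfl
@[simp] lemma mul_c₂ (x y : Kg D) : (x * y).c₂ = x.c₂ + D.e x.k * y.c₂ +
    (D.κ x.a₂ * (D.κ (D.e x.k) * D.e x.k * y.b) - D.κ (D.e x.k) * D.κ y.a₂ * x.b) := rfl
@[simp] lemma one_k : (1 : Kg D).k = 0 := rfl
@[simp] lemma one_a₁ : (1 : Kg D).a₁ = 0 := rfl
@[simp] lemma one_a₂ : (1 : Kg D).a₂ = 0 := rfl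
@[simp] lemma one_b : (1 : Kg D).b = 0 := rfl
@[simp] lemma one_c₁ : (1 : Kg D).c₁ = 0 := rfl
@[simp] lemma one_c₂ : (1 : Kg D).c₂ = 0 := rfl
@[simp] lemma inv_k (x : Kg D) : (x⁻¹).k = -x.k := rfl
@[simp] lemma inv_a₁ (x : Kg D) : (x⁻¹).a₁ = - (D.e (-x.k) * x.a₁) := rfl
@[simp] lemma inv_a₂ (x : Kg D) : (x⁻¹).a₂ = - (D.e (-x.k) * x.a₂) := rfl
@[simp] lemma inv_b (x : Kg D) : (x⁻¹).b = - (D.κ (D.e (-x.k)) * D.e (-x.k) * x.b) := rfl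
@[simp] lemma inv_c₁ (x : Kg D) : (x⁻¹).c₁ = - (D.e (-x.k) * x.c₁) := rfl
@[simp] lemma inv_c₂ (x : Kg D) : (x⁻¹).c₂ = - (D.e (-x.k) * x.c₂) := rfl

instance : Group (Kg D) :=
  Group.ofLeftAxioms
    (by
      intro x y z
      have h := D.κ_e2 x.k
      ext
      · simp [add_assoc]
      · simp only [mul_a₁, mul_k, D.e_add]; ring
      · simp only [mul_a₂, mul_k, D.e_add]; ring
      · simp only [mul_b, mul_k, D.e_add, map_mul]; ring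
      · simp only [mul_a₁, mul_b, mul_c₁, mul_k, D.e_add, map_mul, map_add]
        linear_combination (D.e x.k * (D.κ y.a₁ * D.κ (D.e y.k) * D.e y.k * z.b -
          D.κ (D.e y.k) * D.κ z.a₁ * y.b)) * h
      · simp only [mul_a₂, mul_b, mul_c₂, mul_k, D.e_add, map_mul, map_add]
        linear_combination (D.e x.k * (D.κ y.a₂ * D.κ (D.e y.k) * D.e y.k * z.b -
          D.κ (D.e y.k) * D.κ z.a₂ * y.b)) * h)
    (by
      intro x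
      ext <;> simp [D.e_zero])
    (by
      intro x
      ext
      · simp
      · simp
      · simp
      · simp
      · simp only [mul_c₁, inv_c₁, inv_k, inv_a₁, inv_b, one_c₁, map_neg, map_mul]
        ring
      · simp only [mul_c₂, inv_c₂, inv_k, inv_a₂, inv_b, one_c₂, map_neg, map_mul]
        ring)

end Kg

end Pool.Agent.H347K
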