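import Pool.Agent.H347K.Grp

set_option autoImplicit false

namespace Pool.Agent.H347K

/-- A stage of the chain: a normal subgroup `N` and an order on the quotient. -/
structure Stage (G : Type) [Group G] where
  N : Subgroup G
  Q : Set G
  rel : RelCone N Q
  nor : N.Normal

/-- The initial stage. -/
def Stage.init (G : Type) [Group G] : Stage G := ⟨⊤, ∅, relCone_top, inferInstance⟩

/-- Data for a step. -/
structure StepData {G : Type} [Group G] (S : Stage G) where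
  f : G → ℝ
  χ : G → ℝ
  fmul : ∀ x ∈ S.N, ∀ y ∈ S.N, f (x * y) = f x + f y
  χpos : ∀ g, 0 < χ g
  fconj : ∀ g, ∀ n ∈ S.N, f (g * n * g⁻¹) = χ g * f n

namespace StepData
variable {G : Type} [Group G] {S : Stage G} (d : StepData S)

lemma f1 : d.f 1 = 0 := by
  have := d.fmul 1 S.N.one_mem 1 S.N.one_mem
  rw [mul_one] at this
  linarith

lemma finv (x : G) (hx : x ∈ S.N) : d.f x⁻¹ = - d.f x := by
  have := d.fmul x hx x⁻¹ (S.N.inv_mem hx)
  rw [mul_inv_cancel, d.f1] at this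
  linarith

/-- The kernel. -/
def ker : Subgroup G where
  carrier := {x | x ∈ S.N ∧ d.f x = 0}
  one_mem' := ⟨S.N.one_mem, d.f1⟩
  mul_mem' := by
    rintro x y ⟨hx, hx'⟩ ⟨hy, hy'⟩
    exact ⟨S.N.mul_mem hx hy, by rw [d.fmul x hx y hy, hx', hy', add_zero]⟩
  inv_mem' := by
    rintro x ⟨hx, hx'⟩
    exact ⟨S.N.inv_mem hx, by rw [d.finv x hx, hx', neg_zero]⟩

lemma mem_ker (x : G) : x ∈ d.ker ↔ x ∈ S.N ∧ d.f x = 0 := Iff.rfl

/-- The next stage. -/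
def next : Stage G where
  N := d.ker
  Q := S.Q ∪ {n | n ∈ S.N ∧ 0 < d.f n}
  rel := S.rel.step S.nor d.f d.fmul d.χ d.χpos d.fconj d.mem_ker
  nor := ⟨by
    rintro n ⟨hn, hn'⟩ g
    exact ⟨S.nor.conj_mem _ hn g, by rw [d.fconj g n hn, hn', mul_zero]⟩⟩

lemma next_sub : S.Q ⊆ d.next.Q := Set.subset_union_left

end StepData

variable {R : Type} [CommRing R] {D : RD R}

open Kg

lemma RD.mul_eq_zero' (D : RD R) {r s : R} (h : r * s = 0) : r = 0 ∨ s = 0 := by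
  have := congrArg D.ev h
  rw [map_mul, map_zero, mul_eq_zero] at this
  rcases this with h | h
  · exact Or.inl (D.ev_inj _ h)
  · exact Or.inr (D.ev_inj _ h)

/-! ### Conjugation formulas for elements with `k = 0` -/

lemma conj_k (g n : Kg D) : (g * n * g⁻¹).k = n.k := by simp

lemma conj_a₁ (g n : Kg D) (hn : n.k = 0) : (g * n * g⁻¹).a₁ = D.e g.k * n.a₁ := by
  have h := D.e_mul_neg g.k
  simp only [mul_a₁, mul_k, inv_a₁, hn, add_zero]
  linear_combination (-g.a₁) * h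

lemma conj_a₂ (g n : Kg D) (hn : n.k = 0) : (g * n * g⁻¹).a₂ = D.e g.k * n.a₂ := by
  have h := D.e_mul_neg g.k
  simp only [mul_a₂, mul_k, inv_a₂, hn, add_zero]
  linear_combination (-g.a₂) * h

lemma conj_b (g n : Kg D) (hn : n.k = 0) :
    (g * n * g⁻¹).b = D.κ (D.e g.k) * D.e g.k * n.b := by
  have h := D.e_mul_neg g.k
  have h2 := D.κ_mul_neg g.k
  simp only [mul_b, mul_k, inv_b, hn, add_zero]
  linear_combination (-g.b * D.e g.k * D.e (-g.k)) * h2 - g.b * h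

lemma conj_c₁ (g n : Kg D) (hn : n.k = 0) : (g * n * g⁻¹).c₁ = D.e g.k * n.c₁ +
    2 * (D.κ g.a₁ * (D.κ (D.e g.k) * D.e g.k * n.b) - D.κ (D.e g.k) * D.κ n.a₁ * g.b) := by
  have h := D.e_mul_neg g.k
  have h2 := D.κ_mul_neg g.k
  simp only [mul_c₁, mul_a₁, mul_b, mul_k, inv_a₁, inv_b, inv_c₁, hn, add_zero, map_add, map_mul,
    map_neg]
  linear_combination (-g.c₁) * h + (D.κ g.a₁ * (g.b + D.κ (D.e g.k) * D.e g.k * n.b)) * h2 -
    (D.κ g.a₁ + D.κ (D.e g.k) * D.κ n.a₁) * g.b * (D.e g.k * D.e (-g.k)) * h2 -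
    (D.κ g.a₁ + D.κ (D.e g.k) * D.κ n.a₁) * g.b * h

lemma conj_c₂ (g n : Kg D) (hn : n.k = 0) : (g * n * g⁻¹).c₂ = D.e g.k * n.c₂ +
    2 * (D.κ g.a₂ * (D.κ (D.e g.k) * D.e g.k * n.b) - D.κ (D.e g.k) * D.κ n.a₂ * g.b) := by
  have h := D.e_mul_neg g.k
  have h2 := D.κ_mul_neg g.k
  simp only [mul_c₂, mul_a₂, mul_b, mul_k, inv_a₂, inv_b, inv_c₂, hn, add_zero, map_add, map_mul,
    map_neg]
  linear_combination (-g.c₂) * h + (D.κ g.a₂ * (g.b + D.κ (D.e g.k) * D.e g.k * n.b)) * h2 -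
    (D.κ g.a₂ + D.κ (D.e g.k) * D.κ n.a₂) * g.b * (D.e g.k * D.e (-g.k)) * h2 -
    (D.κ g.a₂ + D.κ (D.e g.k) * D.κ n.a₂) * g.b * h

/-! ### The chain -/

/-- Stage 1: `k = 0`. -/
noncomputable def d1 (D : RD R) : StepData (Stage.init (Kg D)) where
  f := fun x => (x.k : ℝ)
  χ := fun _ => 1
  fmul := by intro x _ y _; simp
  χpos := by intro g; norm_num
  fconj := by intro g n _; simp

lemma mem1 (x : Kg D) : x ∈ (d1 D).next.N ↔ x.k = 0 := by
  show x ∈ (⊤ : Subgroup (Kg D)) ∧ ((x.k : ℤ) : ℝ) = 0 ↔ _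
  simp

/-- Stage 2: `k = 0`, `b = 0`. -/
noncomputable def d2 (D : RD R) : StepData (d1 D).next where
  f := fun x => D.ev' x.b
  χ := fun g => D.ev' (D.κ (D.e g.k) * D.e g.k)
  fmul := by
    intro x hx y _
    rw [mem1] at hx
    rw [mul_b, hx, D.e_zero]
    simp
  χpos := fun g => D.ev'_pos g.k
  fconj := by
    intro g n hn
    rw [mem1] at hn
    rw [conj_b g n hn, map_mul]

lemma mem2 (x : Kg D) : x ∈ (d2 D).next.N ↔ x.k = 0 ∧ x.b = 0 := by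
  show x ∈ (d1 D).next.N ∧ D.ev' x.b = 0 ↔ _
  rw [mem1]
  constructor
  · rintro ⟨h1, h2⟩; exact ⟨h1, D.ev'_inj _ h2⟩
  · rintro ⟨h1, h2⟩; exact ⟨h1, by rw [h2, map_zero]⟩

/-- Stage 3: `q a₁ = p a₂`. -/
noncomputable def d3 (D : RD R) (p q : R) : StepData (d2 D).next where
  f := fun x => D.ev (q * x.a₁ - p * x.a₂)
  χ := fun g => D.ev (D.e g.k)
  fmul := by
    intro x hx y _
    rw [mem2] at hx
    rw [mul_a₁, mul_a₂, hx.1, D.e_zero, ← map_add]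
    congr 1; ring
  χpos := fun g => D.ev_pos g.k
  fconj := by
    intro g n hn
    rw [mem2] at hn
    rw [conj_a₁ g n hn.1, conj_a₂ g n hn.1, ← map_mul]
    congr 1; ring

lemma mem3 (p q : R) (x : Kg D) : x ∈ (d3 D p q).next.N ↔
    x.k = 0 ∧ x.b = 0 ∧ q * x.a₁ = p * x.a₂ := by
  show x ∈ (d2 D).next.N ∧ D.ev (q * x.a₁ - p * x.a₂) = 0 ↔ _
  rw [mem2]
  constructor
  · rintro ⟨⟨h1, h2⟩, h3⟩; exact ⟨h1, h2, sub_eq_zero.1 (D.ev_inj _ h3)⟩
  · rintro ⟨h1, h2, h3⟩; exact ⟨⟨h1, h2⟩, by rw [h3, sub_self, map_zero]⟩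

/-- The two linear forms defining `H`. -/
def X (x : Kg D) : R := (1 + D.e 1) * x.c₁ + x.a₂
def Y (x : Kg D) : R := (1 + D.e 1) * x.c₂ - x.a₁

lemma X_mul (x y : Kg D) (hx : x.k = 0) (hxb : x.b = 0) (hyb : y.b = 0) :
    X (x * y) = X x + X y := by
  simp only [X, mul_c₁, mul_a₂, hx, D.e_zero, hxb, hyb]
  simp only [mul_zero, sub_zero, map_one, one_mul]
  ring

lemma Y_mul (x y : Kg D) (hx : x.k = 0) (hxb : x.b = 0) (hyb : y.b = 0) :
    Y (x * y) = Y x + Y y := by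
  simp only [Y, mul_c₂, mul_a₁, hx, D.e_zero, hxb, hyb]
  simp only [mul_zero, sub_zero, map_one, one_mul]
  ring

lemma X_conj (g n : Kg D) (hn : n.k = 0) (hb : n.b = 0) : X (g * n * g⁻¹) =
    D.e g.k * X n - (1 + D.e 1) * (2 * D.κ (D.e g.k) * g.b) * D.κ n.a₁ := by
  simp only [X, conj_c₁ g n hn, conj_a₂ g n hn, hb]
  ring

lemma Y_conj (g n : Kg D) (hn : n.k = 0) (hb : n.b = 0) : Y (g * n * g⁻¹) =
    D.e g.k * Y n - (1 + D.e 1) * (2 * D.κ (D.e g.k) * g.b) * D.κ n.a₂ := by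
  simp only [Y, conj_c₂ g n hn, conj_a₁ g n hn, hb]
  ring

/-- Stage 4: `κ(q) X = κ(p) Y`. -/
noncomputable def d4 (D : RD R) (p q : R) : StepData (d3 D p q).next where
  f := fun x => D.ev (D.κ q * X x - D.κ p * Y x)
  χ := fun g => D.ev (D.e g.k)
  fmul := by
    intro x hx y hy
    rw [mem3] at hx hy
    rw [X_mul x y hx.1 hx.2.1 hy.2.1, Y_mul x y hx.1 hx.2.1 hy.2.1, ← map_add]
    congr 1; ring
  χpos := fun g => D.ev_pos g.k
  fconj := by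
    intro g n hn
    rw [mem3] at hn
    rw [X_conj g n hn.1 hn.2.1, Y_conj g n hn.1 hn.2.1, ← map_mul]
    congr 1
    have h := congrArg D.κ hn.2.2
    rw [map_mul, map_mul] at h
    linear_combination (-(1 + D.e 1) * (2 * D.κ (D.e g.k) * g.b)) * h

lemma mem4 (p q : R) (x : Kg D) : x ∈ (d4 D p q).next.N ↔
    (x.k = 0 ∧ x.b = 0 ∧ q * x.a₁ = p * x.a₂) ∧ D.κ q * X x = D.κ p * Y x := by
  show x ∈ (d3 D p q).next.N ∧ D.ev (D.κ q * X x - D.κ p * Y x) = 0 ↔ _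
  rw [mem3]
  constructor
  · rintro ⟨h1, h3⟩; exact ⟨h1, sub_eq_zero.1 (D.ev_inj _ h3)⟩
  · rintro ⟨h1, h3⟩; exact ⟨h1, by rw [h3, sub_self, map_zero]⟩

lemma sq_ne {p q u v : R} (h : u * p + v * q = 1) : D.κ p * D.κ p + D.κ q * D.κ q ≠ 0 := by
  intro h0
  obtain ⟨h1, h2⟩ := D.sq p q h0
  have := congrArg D.κ h
  rw [map_add, map_mul, map_mul, h1, h2, mul_zero, mul_zero, add_zero, map_one] at this
  have h3 := congrArg D.ev this
  rw [map_zero, map_one] at h3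
  exact zero_ne_one h3

/-- On stage 4, the elements `a₁`, `a₂` vanish at `t = -1`. -/
lemma κ_a_zero {p q u v : R} (h : u * p + v * q = 1) (x : Kg D)
    (hx : q * x.a₁ = p * x.a₂) (hX : D.κ q * X x = D.κ p * Y x) :
    D.κ x.a₁ = 0 ∧ D.κ x.a₂ = 0 := by
  have h1 := congrArg D.κ hx
  rw [map_mul, map_mul] at h1
  have h2 := congrArg D.κ hX
  simp only [X, Y, map_mul, map_add, map_sub, D.κκ, map_one, D.κ_e1] at h2
  have hne := sq_ne (D := D) h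
  constructor
  · refine (D.mul_eq_zero' (r := D.κ p * D.κ p + D.κ q * D.κ q) ?_).resolve_left hne
    linear_combination D.κ p * h2 + D.κ q * h1
  · refine (D.mul_eq_zero' (r := D.κ p * D.κ p + D.κ q * D.κ q) ?_).resolve_left hne
    linear_combination D.κ q * h2 - D.κ p * h1

/-- Stage 5: `X = Y = 0`. -/
noncomputable def d5 (D : RD R) (p q u v : R) (h : u * p + v * q = 1) :
    StepData (d4 D p q).next where
  f := fun x => D.ev (D.κ p * X x + D.κ q * Y x)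
  χ := fun g => D.ev (D.e g.k)
  fmul := by
    intro x hx y hy
    rw [mem4] at hx hy
    rw [X_mul x y hx.1.1 hx.1.2.1 hy.1.2.1, Y_mul x y hx.1.1 hx.1.2.1 hy.1.2.1, ← map_add]
    congr 1; ring
  χpos := fun g => D.ev_pos g.k
  fconj := by
    intro g n hn
    rw [mem4] at hn
    obtain ⟨h1, h2⟩ := κ_a_zero (D := D) h n hn.1.2.2 hn.2
    rw [X_conj g n hn.1.1 hn.1.2.1, Y_conj g n hn.1.1 hn.1.2.1, ← map_mul, h1, h2]
    congr 1; ring

lemma mem5 (p q u v : R) (h : u * p + v * q = 1) (x : Kg D) : x ∈ (d5 D p q u v h).next.N ↔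
    x.k = 0 ∧ x.b = 0 ∧ q * x.a₁ = p * x.a₂ ∧ X x = 0 ∧ Y x = 0 := by
  show x ∈ (d4 D p q).next.N ∧ D.ev (D.κ p * X x + D.κ q * Y x) = 0 ↔ _
  rw [mem4]
  constructor
  · rintro ⟨⟨⟨h1, h2, h3⟩, h4⟩, h5⟩
    have h6 := D.ev_inj _ h5
    have hne := sq_ne (D := D) h
    refine ⟨h1, h2, h3, ?_, ?_⟩
    · refine (D.mul_eq_zero' (r := D.κ p * D.κ p + D.κ q * D.κ q) ?_).resolve_left hne
      linear_combination D.κ q * h4 + D.κ p * h6
    · refine (D.mul_eq_zero' (r := D.κ p * D.κ p + D.κ q * D.κ q) ?_).resolve_left hne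
      linear_combination D.κ q * h6 - D.κ p * h4
  · rintro ⟨h1, h2, h3, h4, h5⟩
    exact ⟨⟨⟨h1, h2, h3⟩, by rw [h4, h5]; ring⟩, by rw [h4, h5]; simp⟩

/-- Stage 6: the trivial subgroup. -/
noncomputable def d6 (D : RD R) (p q u v : R) (h : u * p + v * q = 1) :
    StepData (d5 D p q u v h).next where
  f := fun x => D.ev (u * x.a₁ + v * x.a₂)
  χ := fun g => D.ev (D.e g.k)
  fmul := by
    intro x hx y hy
    rw [mem5] at hx hy
    rw [mul_a₁, mul_a₂, hx.1, D.e_zero, ← map_add]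
    congr 1; ring
  χpos := fun g => D.ev_pos g.k
  fconj := by
    intro g n hn
    rw [mem5] at hn
    rw [conj_a₁ g n hn.1, conj_a₂ g n hn.1, ← map_mul]
    congr 1; ring

lemma rho_ne : (1 + D.e 1 : R) ≠ 0 := by
  intro h
  have h1 := congrArg D.ev h
  rw [map_add, map_one, map_zero] at h1
  have := D.ev_pos 1
  linarith

lemma N6_bot (p q u v : R) (h : u * p + v * q = 1) : (d6 D p q u v h).next.N = ⊥ := by
  rw [Subgroup.eq_bot_iff_forall]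
  intro x hx
  obtain ⟨hx, h0⟩ := hx
  rw [mem5] at hx
  obtain ⟨h1, h2, h3, h4, h5⟩ := hx
  have h6 : u * x.a₁ + v * x.a₂ = 0 := D.ev_inj _ h0
  have ha₁ : x.a₁ = 0 := by
    linear_combination (-x.a₁) * h + v * h3 + p * h6
  have ha₂ : x.a₂ = 0 := by
    linear_combination (-x.a₂) * h - u * h3 + q * h6
  rw [X, ha₂, add_zero] at h4
  rw [Y, ha₁, sub_zero] at h5
  have hc₁ := (D.mul_eq_zero' h4).resolve_left (rho_ne (D := D))
  have hc₂ := (D.mul_eq_zero' h5).resolve_left (rho_ne (D := D))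
  ext
  · exact h1
  · exact ha₁
  · exact ha₂
  · exact h2
  · exact hc₁
  · exact hc₂

lemma relConvex5 (p q u v : R) (h : u * p + v * q = 1) :
    RelativelyConvex (d5 D p q u v h).next.N := by
  have h6 := (d6 D p q u v h).next.rel
  rw [N6_bot] at h6
  exact relConvex_of_cones (d5 D p q u v h).next.rel h6 (d6 D p q u v h).next_sub

lemma orderable (D : RD R) : Orderable (Kg D) := by
  obtain ⟨o, -⟩ := relConvex5 (D := D) 1 0 1 0 (by ring)
  exact ⟨o⟩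

/-- The subgroup `H`. -/
def HH (D : RD R) : Subgroup (Kg D) where
  carrier := {x | x.k = 0 ∧ x.b = 0 ∧ X x = 0 ∧ Y x = 0}
  one_mem' := by simp [X, Y]
  mul_mem' := by
    rintro x y ⟨h1, h2, h3, h4⟩ ⟨g1, g2, g3, g4⟩
    refine ⟨by simp [h1, g1], by simp [h2, g2], ?_, ?_⟩
    · rw [X_mul x y h1 h2 g2, h3, g3, add_zero]
    · rw [Y_mul x y h1 h2 g2, h4, g4, add_zero]
  inv_mem' := by
    rintro x ⟨h1, h2, h3, h4⟩
    refine ⟨by simp [h1], by simp [h2], ?_, ?_⟩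
    · simp only [X] at h3 ⊢
      simp only [inv_c₁, inv_a₂, h1, neg_zero, D.e_zero]
      linear_combination -h3
    · simp only [Y] at h4 ⊢
      simp only [inv_c₂, inv_a₁, h1, neg_zero, D.e_zero]
      linear_combination -h4

lemma mem_HH (x : Kg D) : x ∈ HH D ↔ x.k = 0 ∧ x.b = 0 ∧ X x = 0 ∧ Y x = 0 := Iff.rfl

lemma HH_normal : (HH D).Normal := by
  constructor
  rintro n ⟨h1, h2, h3, h4⟩ g
  have ha₁ : D.κ n.a₁ = 0 := by
    have := congrArg D.κ h4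
    simp only [Y, map_sub, map_mul, map_add, map_one, D.κ_e1, map_zero] at this
    linear_combination -this
  have ha₂ : D.κ n.a₂ = 0 := by
    have := congrArg D.κ h3
    simp only [X, map_mul, map_add, map_one, D.κ_e1, map_zero] at this
    linear_combination this
  refine ⟨by simp [h1], by rw [conj_b g n h1, h2, mul_zero], ?_, ?_⟩
  · rw [X_conj g n h1 h2, h3, ha₁]; ring
  · rw [Y_conj g n h1 h2, h4, ha₂]; ring

/-- `H` is the union of the relatively convex subgroups of stage 5. -/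
lemma HH_union (x : Kg D) : x ∈ HH D ↔
    ∃ (p q u v : R) (h : u * p + v * q = 1), x ∈ (d5 D p q u v h).next.N := by
  constructor
  · rintro ⟨h1, h2, h3, h4⟩
    obtain ⟨p, q, u, v, h, hpq⟩ := D.bez x.c₁ x.c₂
    refine ⟨p, q, u, v, h, ?_⟩
    rw [mem5]
    refine ⟨h1, h2, ?_, h3, h4⟩
    simp only [X] at h3
    simp only [Y] at h4
    linear_combination (-p) * h3 - q * h4 + (1 + D.e 1) * hpq
  · rintro ⟨p, q, u, v, h, hx⟩
    rw [mem5] at hx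
    exact ⟨hx.1, hx.2.1, hx.2.2.2.1, hx.2.2.2.2⟩

/-! ### `H` is not relatively convex -/

/-- Elements with `k = 0`, `b = 0`. -/
def w (D : RD R) (a₁ a₂ c₁ c₂ : R) : Kg D := ⟨0, a₁, a₂, 0, c₁, c₂⟩

lemma w_mul (a₁ a₂ c₁ c₂ a₁' a₂' c₁' c₂' : R) : w D a₁ a₂ c₁ c₂ * w D a₁' a₂' c₁' c₂' =
    w D (a₁ + a₁') (a₂ + a₂') (c₁ + c₁') (c₂ + c₂') := by
  ext <;> simp [w, D.e_zero]

lemma conj_w_b (β a₁ a₂ c₁ c₂ : R) :
    (⟨0, 0, 0, β, 0, 0⟩ : Kg D) * w D a₁ a₂ c₁ c₂ * (⟨0, 0, 0, β, 0, 0⟩ : Kg D)⁻¹ =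
      w D a₁ a₂ (c₁ - 2 * D.κ a₁ * β) (c₂ - 2 * D.κ a₂ * β) := by
  ext
  · simp [w]
  · rw [conj_a₁ _ _ rfl]; simp [w, D.e_zero]
  · rw [conj_a₂ _ _ rfl]; simp [w, D.e_zero]
  · rw [conj_b _ _ rfl]; simp [w, D.e_zero]
  · rw [conj_c₁ _ _ rfl]; simp [w, D.e_zero]; ring
  · rw [conj_c₂ _ _ rfl]; simp [w, D.e_zero]; ring

lemma conj_w_t (a₁ a₂ c₁ c₂ : R) :
    (⟨1, 0, 0, 0, 0, 0⟩ : Kg D) * w D a₁ a₂ c₁ c₂ * (⟨1, 0, 0, 0, 0, 0⟩ : Kg D)⁻¹ =
      w D (D.e 1 * a₁) (D.e 1 * a₂) (D.e 1 * c₁) (D.e 1 * c₂) := by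
  ext
  · simp [w]
  · rw [conj_a₁ _ _ rfl]; simp [w]
  · rw [conj_a₂ _ _ rfl]; simp [w]
  · rw [conj_b _ _ rfl]; simp [w]
  · rw [conj_c₁ _ _ rfl]; simp [w]
  · rw [conj_c₂ _ _ rfl]; simp [w]

lemma L1 {Q : Set (Kg D)} (hQ : RelCone (HH D) Q) (s : R) (hs : s * s = 1) (hκ : D.κ s = s)
    (h : w D s 0 0 0 ∈ Q) (c : R) : w D 0 0 c (-s) ∈ Q := by
  have h1 := hQ.conj _ h ⟨0, 0, 0, -(D.half * s * c), 0, 0⟩
  rw [conj_w_b, hκ, map_zero] at h1
  have h2 := hQ.conj _ h ⟨1, 0, 0, 0, 0, 0⟩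
  rw [conj_w_t] at h2
  have h3 := hQ.mul _ h1 _ h2
  rw [w_mul] at h3
  have h4 : w D (-(1 + D.e 1) * s) 0 0 (-s) ∈ HH D := by
    refine ⟨rfl, rfl, ?_, ?_⟩
    · simp [X, w]
    · simp [Y, w]; ring
  have h5 := hQ.mulN _ h3 _ h4
  rw [w_mul] at h5
  convert h5 using 1
  ext
  · rfl
  · simp [w]; ring
  · simp [w]
  · rfl
  · simp only [w]
    linear_combination (-c) * D.two_half - 2 * D.half * c * hs
  · simp [w]

lemma L2 {Q : Set (Kg D)} (hQ : RelCone (HH D) Q) (s : R) (hs : s * s = 1) (hκ : D.κ s = s)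
    (h : w D 0 s 0 0 ∈ Q) (c : R) : w D 0 0 s c ∈ Q := by
  have h1 := hQ.conj _ h ⟨0, 0, 0, -(D.half * s * c), 0, 0⟩
  rw [conj_w_b, hκ, map_zero] at h1
  have h2 := hQ.conj _ h ⟨1, 0, 0, 0, 0, 0⟩
  rw [conj_w_t] at h2
  have h3 := hQ.mul _ h1 _ h2
  rw [w_mul] at h3
  have h4 : w D 0 (-(1 + D.e 1) * s) s 0 ∈ HH D := by
    refine ⟨rfl, rfl, ?_, ?_⟩
    · simp [X, w]; ring
    · simp [Y, w]
  have h5 := hQ.mulN _ h3 _ h4
  rw [w_mul] at h5
  convert h5 using 1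
  ext
  · rfl
  · simp [w]
  · simp [w]; ring
  · rfl
  · simp [w]
  · simp only [w]
    linear_combination (-c) * D.two_half - 2 * D.half * c * hs

theorem HH_not : ¬ RelativelyConvex (HH D) := by
  intro hrc
  obtain ⟨Q, hQ⟩ := exists_relCone HH_normal hrc
  have one_ne : (1 : R) ≠ 0 := by
    intro h
    have := congrArg D.ev h
    rw [map_one, map_zero] at this
    exact one_ne_zero this
  have g1 : ∃ s : R, s * s = 1 ∧ D.κ s = s ∧ w D s 0 0 0 ∈ Q := by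
    rcases hQ.total (w D 1 0 0 0) with h | h | h
    · exfalso
      have := h.2.2.2
      simp [Y, w] at this
      exact one_ne this
    · exact ⟨1, by ring, map_one _, h⟩
    · refine ⟨-1, by ring, by rw [map_neg, map_one], ?_⟩
      convert h using 1
      ext <;> simp [w, D.e_zero]
  have g2 : ∃ s : R, s * s = 1 ∧ D.κ s = s ∧ w D 0 s 0 0 ∈ Q := by
    rcases hQ.total (w D 0 1 0 0) with h | h | h
    · exfalso
      have := h.2.2.1
      simp [X, w] at this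
      exact one_ne this
    · exact ⟨1, by ring, map_one _, h⟩
    · refine ⟨-1, by ring, by rw [map_neg, map_one], ?_⟩
      convert h using 1
      ext <;> simp [w, D.e_zero]
  obtain ⟨s, hs, hsκ, hsQ⟩ := g1
  obtain ⟨r, hr, hrκ, hrQ⟩ := g2
  have h1 := L1 hQ s hs hsκ hsQ (-r)
  have h2 := L2 hQ r hr hrκ hrQ s
  have h3 := hQ.mul _ h1 _ h2
  rw [w_mul] at h3
  apply hQ.notMem _ h3
  convert (HH D).one_mem using 1
  ext <;> simp [w]

/-- The main theorem for abstract ring data. -/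
theorem main (D : RD R) : ∃ (ι : Type) (F : ι → Subgroup (Kg D)) (H : Subgroup (Kg D)),
    Orderable (Kg D) ∧ (∀ i, RelativelyConvex (F i)) ∧ (∀ i, (F i).Normal) ∧
    ((H : Set (Kg D)) = ⋃ i, (F i : Set (Kg D))) ∧ H.Normal ∧ Infrainvariant H ∧
    ¬ RelativelyConvex H := by
  refine ⟨{z : R × R × R × R // z.2.2.1 * z.1 + z.2.2.2 * z.2.1 = 1},
    fun z => (d5 D z.1.1 z.1.2.1 z.1.2.2.1 z.1.2.2.2 z.2).next.N, HH D, orderable D,
    fun z => relConvex5 _ _ _ _ z.2, fun z => (d5 D _ _ _ _ z.2).next.nor, ?_, HH_normal, ?_,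
    HH_not⟩
  · ext x
    rw [SetLike.mem_coe, HH_union, Set.mem_iUnion]
    constructor
    · rintro ⟨p, q, u, v, h, hx⟩
      exact ⟨⟨(p, q, u, v), h⟩, hx⟩
    · rintro ⟨⟨⟨p, q, u, v⟩, h⟩, hx⟩
      exact ⟨p, q, u, v, h, hx⟩
  · intro g
    right
    intro h hh
    have := HH_normal.conj_mem h hh g⁻¹
    rwa [inv_inv] at this

end Pool.Agent.H347K
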