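import Mathlib

set_option autoImplicit false

/-!
# Bi-invariant total orders, relatively convex subgroups
-/

namespace Pool.Agent.H347K

/-- A total order on a group, invariant under multiplication on both sides. -/
structure BiOrder (G : Type) [Group G] where
  le : G → G → Prop
  refl : ∀ a, le a a
  trans : ∀ a b c, le a b → le b c → le a c
  antisymm : ∀ a b, le a b → le b a → a = b
  total : ∀ a b, le a b ∨ le b a
  mul_both : ∀ a b x y, le a b → le (x * a * y) (x * b * y)

/-- A subgroup `K` is convex for the order `o`. -/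
def IsConvex {G : Type} [Group G] (o : BiOrder G) (K : Subgroup G) : Prop :=
  ∀ k₁ ∈ K, ∀ k₂ ∈ K, ∀ g : G, o.le k₁ g → o.le g k₂ → g ∈ K

/-- A group is orderable if it carries a two-sided invariant total order. -/
def Orderable (G : Type) [Group G] : Prop := Nonempty (BiOrder G)

/-- A subgroup is relatively convex if it is convex for at least one two-sided total order. -/
def RelativelyConvex {G : Type} [Group G] (K : Subgroup G) : Prop :=
  ∃ o : BiOrder G, IsConvex o K

/-- A subgroup `H` is infrainvariant if `H ⊆ g⁻¹ H g` or `g⁻¹ H g ⊆ H` for every `g`. -/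
def Infrainvariant {G : Type} [Group G] (H : Subgroup G) : Prop :=
  ∀ g : G, (∀ h ∈ H, ∃ h' ∈ H, h = g⁻¹ * h' * g) ∨ (∀ h ∈ H, g⁻¹ * h * g ∈ H)

section
variable {G : Type} [Group G]

/-- The positive cone of an order on `G / N`, as a subset of `G`. -/
structure RelCone (N : Subgroup G) (Q : Set G) : Prop where
  notMem : ∀ x ∈ Q, x ∉ N
  mul : ∀ x ∈ Q, ∀ y ∈ Q, x * y ∈ Q
  conj : ∀ x ∈ Q, ∀ g : G, g * x * g⁻¹ ∈ Q
  mulN : ∀ x ∈ Q, ∀ n ∈ N, x * n ∈ Q
  total : ∀ x : G, x ∈ N ∨ x ∈ Q ∨ x⁻¹ ∈ Q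

lemma RelCone.conj' {N : Subgroup G} {Q : Set G} (h : RelCone N Q) {x : G} (hx : x ∈ Q) (g : G) :
    g⁻¹ * x * g ∈ Q := by
  have := h.conj x hx g⁻¹
  simpa using this

lemma RelCone.nmul {N : Subgroup G} {Q : Set G} (h : RelCone N Q) {x n : G} (hx : x ∈ Q)
    (hn : n ∈ N) : n * x ∈ Q := by
  have h1 := h.conj x hx n
  have h2 := h.mulN _ h1 n hn
  have e : n * x * n⁻¹ * n = n * x := by group
  rwa [e] at h2

lemma RelCone.not_both {N : Subgroup G} {Q : Set G} (h : RelCone N Q) {x : G} (hx : x ∈ Q)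
    (hy : x⁻¹ ∈ Q) : False := by
  have := h.mul _ hx _ hy
  rw [mul_inv_cancel] at this
  exact h.notMem _ this N.one_mem

/-- The trivial start of the chain. -/
lemma relCone_top : RelCone (⊤ : Subgroup G) (∅ : Set G) :=
  ⟨by simp, by simp, by simp, by simp, by simp⟩

/-- One step of the construction. -/
lemma RelCone.step {N N' : Subgroup G} {Q : Set G} (h : RelCone N Q) (hN : N.Normal)
    (f : G → ℝ) (fmul : ∀ x ∈ N, ∀ y ∈ N, f (x * y) = f x + f y)
    (χ : G → ℝ) (χpos : ∀ g, 0 < χ g)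
    (fconj : ∀ g, ∀ n ∈ N, f (g * n * g⁻¹) = χ g * f n)
    (hN' : ∀ x, x ∈ N' ↔ x ∈ N ∧ f x = 0) :
    RelCone N' (Q ∪ {n | n ∈ N ∧ 0 < f n}) := by
  have f1 : f 1 = 0 := by
    have := fmul 1 N.one_mem 1 N.one_mem
    rw [mul_one] at this
    linarith
  have finv : ∀ x ∈ N, f x⁻¹ = - f x := by
    intro x hx
    have := fmul x hx x⁻¹ (N.inv_mem hx)
    rw [mul_inv_cancel, f1] at this
    linarith
  refine ⟨?_, ?_, ?_, ?_, ?_⟩
  · rintro x (hx | ⟨hx, hx'⟩) hx2
    · exact h.notMem _ hx ((hN' x).1 hx2).1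
    · have := ((hN' x).1 hx2).2
      linarith
  · rintro x (hx | ⟨hx, hx'⟩) y (hy | ⟨hy, hy'⟩)
    · exact Or.inl (h.mul _ hx _ hy)
    · exact Or.inl (h.mulN _ hx _ hy)
    · exact Or.inl (h.nmul hy hx)
    · right
      refine ⟨N.mul_mem hx hy, ?_⟩
      rw [fmul _ hx _ hy]
      linarith
  · rintro x (hx | ⟨hx, hx'⟩) g
    · exact Or.inl (h.conj _ hx g)
    · right
      refine ⟨hN.conj_mem _ hx g, ?_⟩
      rw [fconj _ _ hx]
      exact mul_pos (χpos g) hx'
  · rintro x (hx | ⟨hx, hx'⟩) n hn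
    · exact Or.inl (h.mulN _ hx _ ((hN' n).1 hn).1)
    · right
      have hn' := (hN' n).1 hn
      refine ⟨N.mul_mem hx hn'.1, ?_⟩
      rw [fmul _ hx _ hn'.1, hn'.2]
      linarith
  · intro x
    rcases h.total x with hx | hx | hx
    · rcases lt_trichotomy (f x) 0 with h1 | h1 | h1
      · right; right; right
        refine ⟨N.inv_mem hx, ?_⟩
        rw [finv x hx]; linarith
      · left
        exact (hN' x).2 ⟨hx, h1⟩
      · right; left; right
        exact ⟨hx, h1⟩
    · exact Or.inr (Or.inl (Or.inl hx))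
    · exact Or.inr (Or.inr (Or.inl hx))

/-- The order given by a cone relative to the trivial subgroup. -/
def orderOfCone (Q : Set G) (h : RelCone (⊥ : Subgroup G) Q) : BiOrder G where
  le a b := a = b ∨ b * a⁻¹ ∈ Q
  refl a := Or.inl rfl
  trans := by
    rintro a b c (rfl | h1) (rfl | h2)
    · exact Or.inl rfl
    · exact Or.inr h2
    · exact Or.inr h1
    · right
      have := h.mul _ h2 _ h1
      have e : c * b⁻¹ * (b * a⁻¹) = c * a⁻¹ := by group
      rwa [e] at this
  antisymm := by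
    rintro a b (rfl | h1) (h2 | h2)
    · rfl
    · rfl
    · exact h2.symm
    · exfalso
      apply h.not_both h1
      have e : (b * a⁻¹)⁻¹ = a * b⁻¹ := by group
      rwa [e]
  total := by
    intro a b
    rcases h.total (b * a⁻¹) with h1 | h1 | h1
    · left; left
      rw [Subgroup.mem_bot, mul_inv_eq_one] at h1
      exact h1.symm
    · left; right; exact h1
    · right; right
      have e : (b * a⁻¹)⁻¹ = a * b⁻¹ := by group
      rwa [e] at h1
  mul_both := by
    rintro a b x y (rfl | h1)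
    · exact Or.inl rfl
    · right
      have := h.conj _ h1 x
      have e : x * (b * a⁻¹) * x⁻¹ = x * b * y * (x * a * y)⁻¹ := by group
      rwa [e] at this

/-- If an order on `G` refines a cone relative to `N`, the subgroup `N` is convex. -/
lemma relConvex_of_cones {N : Subgroup G} {Q Q' : Set G} (h : RelCone N Q)
    (h' : RelCone (⊥ : Subgroup G) Q') (hsub : Q ⊆ Q') : RelativelyConvex N := by
  refine ⟨orderOfCone Q' h', ?_⟩
  intro k₁ hk₁ k₂ hk₂ g h1 h2
  by_contra hg
  have key1 : g * k₁⁻¹ ∈ Q := by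
    rcases h.total (g * k₁⁻¹) with h3 | h3 | h3
    · exfalso
      apply hg
      have := N.mul_mem h3 hk₁
      simpa using this
    · exact h3
    · exfalso
      rcases h1 with h1 | h1
      · exact hg (h1 ▸ hk₁)
      · exact h'.not_both h1 (hsub h3)
  have key2 : k₂ * g⁻¹ ∈ Q := by
    rcases h.total (k₂ * g⁻¹) with h3 | h3 | h3
    · exfalso
      apply hg
      have := N.mul_mem (N.inv_mem h3) hk₂
      simpa using this
    · exact h3
    · exfalso
      rcases h2 with h2 | h2
      · exact hg (h2 ▸ hk₂)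
      · exact h'.not_both h2 (hsub h3)
  have := h.mul _ key2 _ key1
  have e : k₂ * g⁻¹ * (g * k₁⁻¹) = k₂ * k₁⁻¹ := by group
  rw [e] at this
  exact h.notMem _ this (N.mul_mem hk₂ (N.inv_mem hk₁))

/-- A normal relatively convex subgroup gives a relative cone. -/
lemma exists_relCone {N : Subgroup G} (hN : N.Normal) (h : RelativelyConvex N) :
    ∃ Q : Set G, RelCone N Q := by
  obtain ⟨o, ho⟩ := h
  have hmul : ∀ x y, o.le 1 x → o.le 1 y → o.le 1 (x * y) := by
    intro x y hx hy
    have := o.mul_both 1 y x 1 hy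
    simp only [mul_one] at this
    exact o.trans _ _ _ hx this
  have hconj : ∀ x g, o.le 1 x → o.le 1 (g * x * g⁻¹) := by
    intro x g hx
    have := o.mul_both 1 x g g⁻¹ hx
    simpa using this
  have hle : ∀ x, ¬ o.le 1 x → o.le 1 x⁻¹ := by
    intro x hx
    have h1 := (o.total 1 x).resolve_left hx
    have := o.mul_both x 1 1 x⁻¹ h1
    simpa using this
  refine ⟨{x | o.le 1 x ∧ x ∉ N}, ?_, ?_, ?_, ?_, ?_⟩
  · exact fun x hx => hx.2
  · rintro x ⟨hx, hx'⟩ y ⟨hy, hy'⟩
    refine ⟨hmul x y hx hy, ?_⟩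
    intro hxy
    apply hx'
    apply ho 1 N.one_mem _ hxy x hx
    have := o.mul_both 1 y x 1 hy
    simpa using this
  · rintro x ⟨hx, hx'⟩ g
    refine ⟨hconj x g hx, ?_⟩
    intro h2
    apply hx'
    have := hN.conj_mem _ h2 g⁻¹
    have e : g⁻¹ * (g * x * g⁻¹) * g⁻¹⁻¹ = x := by group
    rwa [e] at this
  · rintro x ⟨hx, hx'⟩ n hn
    have hxn : x * n ∉ N := by
      intro h2
      apply hx'
      have := N.mul_mem h2 (N.inv_mem hn)
      simpa using this
    refine ⟨?_, hxn⟩
    by_contra h3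
    have h4 := hle _ h3
    apply hx'
    apply ho 1 N.one_mem n⁻¹ (N.inv_mem hn) x hx
    have := o.mul_both 1 (x * n)⁻¹ 1 x h4
    simpa using this
  · intro x
    by_cases hx : x ∈ N
    · exact Or.inl hx
    · right
      by_cases h1 : o.le 1 x
      · left; exact ⟨h1, hx⟩
      · right
        refine ⟨hle x h1, ?_⟩
        intro h2
        exact hx (by simpa using N.inv_mem h2)

end

end Pool.Agent.H347K
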