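import Pool.Agent.H347K.Grp

set_option autoImplicit false

namespace Pool.Agent.H347K

open Polynomial

lemma exists_lam : ∃ x : ℝ, 0 < x ∧ Transcendental ℚ x := by
  have h := transcendental_liouvilleNumber (m := 2) (le_refl _)
  have h2 : Transcendental ℚ (liouvilleNumber ((2:ℕ):ℝ)) := by
    intro hh
    exact h ((IsFractionRing.isAlgebraic_iff ℤ ℚ ℝ).2 hh)
  rcases lt_trichotomy (liouvilleNumber ((2:ℕ):ℝ)) 0 with h3 | h3 | h3
  · refine ⟨-liouvilleNumber ((2:ℕ):ℝ), by linarith, ?_⟩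
    intro hh
    apply h2
    have := hh.neg
    simpa using this
  · exfalso
    apply h2
    rw [h3]
    exact isAlgebraic_zero
  · exact ⟨_, h3, h2⟩

noncomputable def lam : ℝ := exists_lam.choose
lemma lam_pos : 0 < lam := exists_lam.choose_spec.1
lemma lam_tr : Transcendental ℚ lam := exists_lam.choose_spec.2
lemma lam_tr' : Transcendental ℚ (-lam) := by
  intro h
  apply lam_tr
  have := h.neg
  simpa using this

/-- Polynomials that do not vanish at `-1`. -/
def Mon : Submonoid ℚ[X] where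
  carrier := {q | q.eval (-1) ≠ 0}
  one_mem' := by simp
  mul_mem' := by
    rintro a b ha hb
    simp only [Set.mem_ofPred_eq, eval_mul] at *
    exact mul_ne_zero ha hb

lemma mem_Mon {q : ℚ[X]} : q ∈ Mon ↔ q.eval (-1) ≠ 0 := Iff.rfl

lemma Mon_ne {q : ℚ[X]} (h : q ∈ Mon) : q ≠ 0 := by
  rintro rfl
  simp [mem_Mon] at h

/-- The local ring of `ℚ[t]` at `t = -1`. -/
abbrev RR : Type := Localization Mon

lemma eval_unit (y : Mon) : IsUnit (evalRingHom (-1 : ℚ) y) :=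
  isUnit_iff_ne_zero.2 y.2

noncomputable def eps : RR →+* ℚ := IsLocalization.lift eval_unit

lemma ev_unit (x : ℝ) (hx : Transcendental ℚ x) (y : Mon) :
    IsUnit ((aeval x : ℚ[X] →ₐ[ℚ] ℝ).toRingHom y) := by
  rw [isUnit_iff_ne_zero]
  intro h
  exact Mon_ne y.2 ((transcendental_iff.1 hx) _ h)

noncomputable def evx (x : ℝ) (hx : Transcendental ℚ x) : RR →+* ℝ :=
  IsLocalization.lift (ev_unit x hx)

lemma eps_alg (p : ℚ[X]) : eps (algebraMap ℚ[X] RR p) = p.eval (-1) := IsLocalization.lift_eq _ _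

lemma evx_alg (x : ℝ) (hx : Transcendental ℚ x) (p : ℚ[X]) :
    evx x hx (algebraMap ℚ[X] RR p) = aeval x p := IsLocalization.lift_eq _ _

lemma exists_rep (r : RR) : ∃ (p : ℚ[X]) (q : Mon), r * algebraMap ℚ[X] RR q =
    algebraMap ℚ[X] RR p := by
  obtain ⟨⟨p, q⟩, h⟩ := IsLocalization.surj Mon r
  exact ⟨p, q, h⟩

lemma isUnit_alg {p : ℚ[X]} (hp : p ∈ Mon) : IsUnit (algebraMap ℚ[X] RR p) :=
  IsLocalization.map_units RR ⟨p, hp⟩

lemma evx_inj (x : ℝ) (hx : Transcendental ℚ x) (r : RR) (h : evx x hx r = 0) : r = 0 := by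
  obtain ⟨p, q, hr⟩ := exists_rep r
  have h1 := congrArg (evx x hx) hr
  rw [map_mul, h, zero_mul, evx_alg] at h1
  have h2 : p = 0 := (transcendental_iff.1 hx) _ h1.symm
  rw [h2, map_zero] at hr
  exact ((isUnit_alg q.2).mul_left_eq_zero).1 hr

lemma X_mem : (X : ℚ[X]) ∈ Mon := by
  rw [mem_Mon]; simp

noncomputable def tU : RRˣ := (isUnit_alg X_mem).unit

noncomputable def ee (k : ℤ) : RR := ((tU ^ k : RRˣ) : RR)

lemma ee_zero : ee 0 = 1 := by simp [ee]
lemma ee_add (k l : ℤ) : ee (k + l) = ee k * ee l := by simp [ee, zpow_add]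
lemma ee_one : ee 1 = algebraMap ℚ[X] RR X := by simp [ee, tU]

/-- A ring homomorphism maps `ee k` to the `k`-th power of the image of `t`. -/
lemma map_ee {K : Type} [Field K] (f : RR →+* K) (k : ℤ) : f (ee k) = (f (ee 1)) ^ k := by
  have h : f (ee k) = ((Units.map (f : RR →* K) (tU ^ k) : Kˣ) : K) := rfl
  have h1 : f (ee 1) = ((Units.map (f : RR →* K) tU : Kˣ) : K) := by
    simp [ee]
  rw [h, h1, map_zpow, Units.val_zpow_eq_zpow_val]

lemma eps_e1 : eps (ee 1) = -1 := by rw [ee_one, eps_alg]; simp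

lemma evx_e1 (x : ℝ) (hx : Transcendental ℚ x) : evx x hx (ee 1) = x := by
  rw [ee_one, evx_alg]; simp

noncomputable def iota : ℚ →+* RR := (algebraMap ℚ[X] RR).comp C

lemma eps_iota (x : ℚ) : eps (iota x) = x := by
  show eps (algebraMap ℚ[X] RR (C x)) = x
  rw [eps_alg]; simp

lemma evx_iota (y : ℝ) (hy : Transcendental ℚ y) (x : ℚ) : evx y hy (iota x) = x := by
  show evx y hy (algebraMap ℚ[X] RR (C x)) = x
  rw [evx_alg]; simp

noncomputable def kap : RR →+* RR := iota.comp eps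

lemma kap_apply (r : RR) : kap r = iota (eps r) := rfl

lemma ker_kap (r : RR) (hr : kap r = 0) : ∃ s, r = (1 + ee 1) * s := by
  have hr0 : eps r = 0 := by
    have := congrArg eps hr
    rwa [kap_apply, eps_iota, map_zero] at this
  obtain ⟨p, q, h⟩ := exists_rep r
  have e1 := congrArg eps h
  rw [map_mul, eps_alg, eps_alg, hr0, zero_mul] at e1
  obtain ⟨p', hp'⟩ := (dvd_iff_isRoot (p := p) (a := -1)).2 e1.symm
  obtain ⟨v, hv⟩ := isUnit_alg q.2
  refine ⟨algebraMap ℚ[X] RR p' * (↑v⁻¹ : RR), ?_⟩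
  rw [← hv] at h
  have h2 : r = algebraMap ℚ[X] RR p * (↑v⁻¹ : RR) := by
    rw [← h, mul_assoc, Units.mul_inv, mul_one]
  have h3 : (X - C (-1) : ℚ[X]) = 1 + X := by
    have : (C (-1) : ℚ[X]) = -1 := by
      rw [C_neg, C_1]
    rw [this]; ring
  rw [h2, hp', h3, map_mul, map_add, ee_one, map_one]
  ring

lemma bez_poly (n₁ n₂ : ℚ[X]) : ∃ p q u v : ℚ[X], u * p + v * q = 1 ∧ q * n₂ + p * n₁ = 0 := by
  classical
  by_cases h0 : n₁ = 0 ∧ n₂ = 0
  · exact ⟨1, 0, 1, 0, by ring, by rw [h0.1, h0.2]; ring⟩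
  · have hg : EuclideanDomain.gcd n₁ n₂ ≠ 0 := by
      intro h
      exact h0 (EuclideanDomain.gcd_eq_zero_iff.1 h)
    obtain ⟨m₁, hm₁⟩ := EuclideanDomain.gcd_dvd_left n₁ n₂
    obtain ⟨m₂, hm₂⟩ := EuclideanDomain.gcd_dvd_right n₁ n₂
    have hb := EuclideanDomain.gcd_eq_gcd_ab n₁ n₂
    set g := EuclideanDomain.gcd n₁ n₂
    set a := EuclideanDomain.gcdA n₁ n₂
    set b := EuclideanDomain.gcdB n₁ n₂
    have h1 : m₁ * a + m₂ * b = 1 := by
      have h2 : g * (m₁ * a + m₂ * b) = g * 1 := by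
        have e1 : n₁ * a = g * m₁ * a := congrArg (· * a) hm₁
        have e2 : n₂ * b = g * m₂ * b := congrArg (· * b) hm₂
        linear_combination (-1 : ℚ[X]) * hb - e1 - e2
      exact mul_left_cancel₀ hg h2
    refine ⟨m₂, -m₁, b, -a, by linear_combination h1, ?_⟩
    have e1 : m₂ * n₁ = m₂ * (g * m₁) := congrArg (m₂ * ·) hm₁
    have e2 : m₁ * n₂ = m₁ * (g * m₂) := congrArg (m₁ * ·) hm₂
    linear_combination e1 - e2

lemma bez_RR (c₁ c₂ : RR) : ∃ p q u v : RR, u * p + v * q = 1 ∧ q * c₂ + p * c₁ = 0 := by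
  obtain ⟨n₁, d₁, h₁⟩ := exists_rep c₁
  obtain ⟨n₂, d₂, h₂⟩ := exists_rep c₂
  obtain ⟨p, q, u, v, huv, hpq⟩ := bez_poly (n₁ * d₂) (n₂ * d₁)
  refine ⟨algebraMap ℚ[X] RR p, algebraMap ℚ[X] RR q, algebraMap ℚ[X] RR u,
    algebraMap ℚ[X] RR v, ?_, ?_⟩
  · rw [← map_mul, ← map_mul, ← map_add, huv, map_one]
  · have h3 := congrArg (algebraMap ℚ[X] RR) hpq
    rw [map_add, map_mul, map_mul, map_mul, map_mul, map_zero, ← h₁, ← h₂] at h3
    have hu : IsUnit (algebraMap ℚ[X] RR d₁ * algebraMap ℚ[X] RR d₂) :=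
      (isUnit_alg d₁.2).mul (isUnit_alg d₂.2)
    refine (hu.mul_left_eq_zero).1 ?_
    linear_combination h3

lemma two_alg : algebraMap ℚ[X] RR 2 = 2 := by
  have h : (2 : ℚ[X]) = 1 + 1 := by norm_num
  rw [h, map_add, map_one]; norm_num

lemma eps_ee_sq (k : ℤ) : eps (ee k) * eps (ee k) = 1 := by
  rw [map_ee eps k, eps_e1, ← mul_zpow]
  norm_num

/-- The ring data. -/
noncomputable def RDD : RD RR where
  e := ee
  e_zero := ee_zero
  e_add := ee_add
  κ := kap
  κκ := by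
    intro r
    rw [kap_apply, kap_apply, eps_iota]
  κ_e2 := by
    intro k
    rw [kap_apply, ← map_mul, eps_ee_sq, map_one]
  κ_e1 := by
    rw [kap_apply, eps_e1, map_neg, map_one]
  ker := ker_kap
  sq := by
    intro p q h
    rw [kap_apply, kap_apply] at h
    have h1 := congrArg eps h
    rw [map_add, map_mul, map_mul, eps_iota, eps_iota, map_zero] at h1
    have h2 : eps p = 0 := by nlinarith [mul_self_nonneg (eps p), mul_self_nonneg (eps q)]
    have h3 : eps q = 0 := by nlinarith [mul_self_nonneg (eps p), mul_self_nonneg (eps q)]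
    rw [kap_apply, kap_apply, h2, h3, map_zero]
    exact ⟨rfl, rfl⟩
  half := algebraMap ℚ[X] RR (C (1 / 2))
  two_half := by
    rw [← two_alg, ← map_mul, ← map_one (algebraMap ℚ[X] RR)]
    congr 1
    have h2 : (2 : ℚ[X]) = C 2 := (map_ofNat C 2).symm
    rw [h2, ← C_mul]
    norm_num
  ev := evx lam lam_tr
  ev_inj := evx_inj lam lam_tr
  ev_pos := by
    intro k
    rw [map_ee, evx_e1]
    exact zpow_pos lam_pos k
  ev' := evx (-lam) lam_tr'
  ev'_inj := evx_inj (-lam) lam_tr'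
  ev'_pos := by
    intro k
    rw [map_mul, kap_apply, evx_iota, map_ee eps, eps_e1, map_ee, evx_e1]
    push_cast
    rw [← mul_zpow]
    have : (-1 : ℝ) * -lam = lam := by ring
    rw [this]
    exact zpow_pos lam_pos k
  bez := bez_RR

end Pool.Agent.H347K
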